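import Pool.Agent.Y156.W.Curve

/-!
# Fine Selmer groups: one elliptic curve over number fields of degree prime to `p`

For all odd prime numbers `p`, the conjecture that the dual of the fine Selmer group of `E[p^∞]` over the
cyclotomic `ℤ_p`-extension of `K` is finitely generated over `ℤ_p`, for all number fields `K` and all
elliptic curves `E` over `K`, is equivalent to its restriction to one elliptic curve `E₀ p` over a number
field `M p`, and to the number fields `K` that contain `M p` and whose degree over `M p` is not divisible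
by `p`. For instance `M p = ℚ` and `E₀ p` is the same elliptic curve over `ℚ` for all `p`.

The fine Selmer groups are given by their known properties (`IsFine`).
-/

set_option autoImplicit false

namespace Pool.Agent.Results.MP_20768c_nt.OneCurve

open Pool.Agent.Y156.W

/-- The reduction to one elliptic curve over the number fields of degree prime to `p`. -/
theorem result {Ω : Type} [Field Ω] [Algebra ℚ Ω] [IsAlgClosure ℚ Ω] (T : ℕ → FineData ℚ Ω)
    (hT : ∀ p : ℕ, p.Prime → p ≠ 2 → IsFine p (T p))
    (M : ℕ → IntermediateField ℚ Ω) (hM : ∀ p, FiniteDimensional ℚ (M p))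
    (E₀ : ∀ p, (T p).El) (hE : ∀ p, (T p).base (E₀ p) ≤ M p) :
    (∀ p : ℕ, p.Prime → p ≠ 2 → ∀ E (K : IntermediateField ℚ Ω), FiniteDimensional ℚ K →
      (T p).base E ≤ K → (T p).fine E K) ↔
      ∀ p : ℕ, p.Prime → p ≠ 2 → ∀ K : IntermediateField ℚ Ω, PrimeTo p (M p) K →
        (T p).fine (E₀ p) K :=
  ⟨fun h p hp hp2 => (one_curve hp (hT p hp hp2) (hM p) (E₀ p) (hE p)).1 (h p hp hp2),
    fun h p hp hp2 => (one_curve hp (hT p hp hp2) (hM p) (E₀ p) (hE p)).2 (h p hp hp2)⟩

end Pool.Agent.Results.MP_20768c_nt.OneCurve
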